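import Pool.Agent.T9h51.PN.LocalZero

/-!
# MP_1322f0_nt: the `p`-part of Popescu's conjecture when `p` does not divide the class number

`H / F` is an abelian extension of number fields with group `G`; `S` is a finite set of places of `F` containing the
archimedean ones, given by its prime ideals. `Unram H S` is (H1), `System G S w` is (H2) and (H3), `Full G S w` says that
all places of `S` which split completely are among the `v_i`. `PopescuN N Λ S w` is the statement of Popescu's conjecture
(Q1) for `N w_H η'` in place of `w_H η'`: `N w_H η'` belongs to the lattice `Λ`. The `p`-part of the conjecture is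
`PPart p Λ S w`: this for some `N` prime to `p`.

Let `S₀` be a set with (H1) such that the class group of `H` modulo the prime ideals over `S₀` has order prime to `p`
(this holds for all `S₀` if `p` does not divide the class number of `H`), and let `w₀` be a full system of `r₀` places over
`S₀`.

1. If `r₀ ≥ 1`, the `p`-part of Q1 holds for the single instance `(S₀, w₀)` if and only if it holds for ALL finite sets
   `S` with (H1) which contain the places of `S₀` not split completely and some place not split completely, all `r ≥ 1`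
   and all `v_i`, `w_i`, with one `N` for all of them.
2. The same for `r₀ = 0`, if there are `N` prime to `p` and `θ` in `ℚ[G]` with the values `L_(S₀)(0, χ)` such that `N a θ`
   belongs to `ℤ[G]` for all `a` in `ℤ[G]` which annihilate the roots of unity of `H`. For `F` totally real and `H` totally
   complex this is the theorem of Deligne and Ribet (with `N = 1`).
3. In both cases `S₀` can be the set of the archimedean and the ramified places, if `p` does not divide the class number.
   For `F` imaginary quadratic, `H / F` ramified, this set has `r₀ = 1` and the instance is a theorem of Stark.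
-/

set_option autoImplicit false

open NumberField IsDedekindDomain Filter Topology

noncomputable section

namespace Pool.Agent.Results.MP_1322f0_nt.ClassNumberPrimeToP

open Pool.Agent.K3h30.RS Pool.Agent.T9h51.PS

variable {F H G : Type} [Field F] [NumberField F] [Field H] [NumberField H] [Algebra F H]
    [CommGroup G] [Finite G] [MulSemiringAction G H]

/-- The power `x ^ z` of `x` in `H^*`, `z` in `ℤ[G]`. -/
def gp (z : MonoidAlgebra ℤ G) (x : Hˣ) : Hˣ := z.coeff.prod fun γ n => act γ x ^ n

/-- The extension `H(ε ^ (1 / w)) / F` is abelian, `w` the number of the roots of unity in `H`: all automorphisms over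
`F` of an algebraic closure commute on the `w`-th roots of `ε`. -/
def IsAb (F : Type) {H : Type} [Field F] [Field H] [NumberField H] [Algebra F H] (ε : Hˣ) : Prop :=
  ∀ x : AlgebraicClosure H, x ^ (Units.torsionOrder H) = algebraMap H (AlgebraicClosure H) (ε : H) →
    ∀ s t : AlgebraicClosure H ≃ₐ[F] AlgebraicClosure H, s (t x) = t (s x)

/-- `w_1, ..., w_r` represent all places of `S` which split completely. -/
def Full (G : Type) [CommGroup G] [MulSemiringAction G H] (S : Finset (HeightOneSpectrum (𝓞 F))) {r : ℕ}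
    (w : Fin r → Place H) : Prop :=
  ∀ u : Place H, InS (S : Set (HeightOneSpectrum (𝓞 F))) u → (∀ γ : G, Fixes u γ → γ = 1) → ∃ i, Conj G u (w i)

/-- Popescu's conjecture for `N η'` in place of `η'`: the element `η'` is rational, and for all `φ_1, ..., φ_(r-1)` the
element `(φ_1 ∧ ... ∧ φ_(r-1)) (N w_H η')` is the image of some `ε` in `E_S(H)` with `H(ε ^ (1 / w_H)) / F` abelian. The
equality in `ℚ E_S(H)` is tested with all homomorphisms `ψ`. -/
def PopescuN (N : ℕ) (Λ : LData F H G) (S : Finset (HeightOneSpectrum (𝓞 F))) {m : ℕ} (w : Fin (m + 1) → Place H) :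
    Prop :=
  ∃ u : Wedge G (m + 1) (US H S), IsEta Λ S w u ∧
    ∀ φ : Fin m → GHom G (US H S), ∃ ε : US H S, IsAb F (ε : Hˣ) ∧ ∀ ψ : GHom G (US H S),
      ((N * Units.torsionOrder H : ℕ) : MonoidAlgebra ℚ G) * u.value (Fin.snoc φ ψ) = toQ (ψ.f (Additive.ofMul ε))

/-- The `p`-part of Popescu's conjecture for `H / F`, `S` and `w_1, ..., w_r`: the element `N w_H η'` is in the lattice
for some `N` prime to `p`. -/
def PPart (p : ℕ) (Λ : LData F H G) (S : Finset (HeightOneSpectrum (𝓞 F))) {m : ℕ} (w : Fin (m + 1) → Place H) : Prop :=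
  ∃ N : ℕ, ¬ p ∣ N ∧ PopescuN N Λ S w

/-- The class group of `H` modulo the prime ideals over `S` has order prime to `p`: for every prime ideal `P` not over
`S` there is `n` prime to `p` such that `P ^ n` is principal up to prime ideals over `S`. -/
def ClassPrime (p : ℕ) (H : Type) [Field H] [NumberField H] [Algebra F H] (S : Finset (HeightOneSpectrum (𝓞 F))) :
    Prop :=
  ∀ P : HeightOneSpectrum (𝓞 H), ¬ Above (S : Set (HeightOneSpectrum (𝓞 F))) P →
    ∃ (n : ℕ) (x : Hˣ), ¬ p ∣ n ∧ od P (Additive.ofMul x) = n ∧ ∀ Q : HeightOneSpectrum (𝓞 H), Q ≠ P →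
      ¬ Above (S : Set (HeightOneSpectrum (𝓞 F))) Q → od Q (Additive.ofMul x) = 0

/-- `S` contains a place which does not split completely. -/
def NonSplit (G H : Type) [Field H] [NumberField H] [Algebra F H] [CommGroup G] [MulSemiringAction G H]
    (S : Finset (HeightOneSpectrum (𝓞 F))) : Prop :=
  ∃ u : Place H, InS (S : Set (HeightOneSpectrum (𝓞 F))) u ∧ ∃ γ : G, Fixes u γ ∧ γ ≠ 1

/-- The `p`-part of Popescu's conjecture for all finite sets `S` with (H1) which contain the places of `S₀` not split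
completely and some place not split completely, all `r ≥ 1` and all `v_i`, `w_i` with (H2), (H3); with one factor `N`
prime to `p` for all of them. -/
def AllSets (p : ℕ) (Λ : LData F H G) (S₀ : Finset (HeightOneSpectrum (𝓞 F))) : Prop :=
  ∃ N : ℕ, ¬ p ∣ N ∧ ∀ S : Finset (HeightOneSpectrum (𝓞 F)), Unram H S →
    (∀ v ∈ S₀, v ∉ S → ∀ P : HeightOneSpectrum (𝓞 H), Above {v} P → ∀ γ : G,
      Fixes (Sum.inr P : Place H) γ → γ = 1) →
    NonSplit G H S → ∀ (m : ℕ) (w : Fin (m + 1) → Place H), System G S w → PopescuN N Λ S w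

/-- `θ` is the Stickelberger element of `S` (`r = 0`): it belongs to `e' ℚ[G]` and `χ⁻¹ (θ) = L_S(0, χ)` for the
characters `χ` used in the conjecture. -/
def Stickelberger (Λ : LData F H G) (S : Finset (HeightOneSpectrum (𝓞 F))) (w : Fin 0 → Place H)
    (θ : MonoidAlgebra ℚ G) : Prop :=
  (∀ χ : G →* ℂˣ, ¬ Active S w χ → charValue χ (toR θ) = 0) ∧
    ∀ χ : G →* ℂˣ, Active S w χ → Tendsto (Λ.L S χ) (𝓝[≠] 0) (𝓝 (charValue χ⁻¹ (toR θ)))

/-- The `p`-part of Popescu's conjecture for all `S` and `r` from its `p`-part for one set, if the class number is prime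
to `p`. -/
theorem result [IsGaloisGroup G F H] (p : ℕ) (hp : p.Prime) :
    (∀ (Λ : LData F H G) (S₀ : Finset (HeightOneSpectrum (𝓞 F))) (m₀ : ℕ) (w₀ : Fin (m₀ + 1) → Place H),
      Unram H S₀ → ClassPrime p H S₀ → System G S₀ w₀ → Full G S₀ w₀ → (PPart p Λ S₀ w₀ ↔ AllSets p Λ S₀)) ∧
    (∀ (Λ : LData F H G) (S₀ : Finset (HeightOneSpectrum (𝓞 F))) (w₀ : Fin 0 → Place H) (θ : MonoidAlgebra ℚ G) (N : ℕ),
      Unram H S₀ → ClassPrime p H S₀ → System G S₀ w₀ → Full G S₀ w₀ → Stickelberger Λ S₀ w₀ θ → ¬ p ∣ N →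
        (∀ a : MonoidAlgebra ℤ G, (∀ ζ : Hˣ, ζ ^ Units.torsionOrder H = 1 → gp a ζ = 1) →
          ∃ z : MonoidAlgebra ℤ G, toQ z = (N : MonoidAlgebra ℚ G) * toQ a * θ) →
        AllSets p Λ S₀) ∧
    (¬ p ∣ Fintype.card (ClassGroup (𝓞 H)) → ∀ S₀ : Finset (HeightOneSpectrum (𝓞 F)), ClassPrime p H S₀) := by
  refine ⟨fun Λ S₀ m₀ w₀ hS₀ hcl hw₀ fw₀ => ?_, fun Λ S₀ w₀ θ N hS₀ hcl hw₀ fw₀ hθ hpN hN => ?_,
    fun h S₀ P _ => Pool.Agent.T9h51.PN.triv_of_card h S₀ P⟩
  · refine ⟨fun h => Pool.Agent.T9h51.PN.local_all Λ hp hS₀ hcl hw₀ fw₀ h, fun h => ?_⟩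
    obtain ⟨N, hpN, hN⟩ := h
    obtain ⟨u, hu1, hu2⟩ := hw₀.more
    have hns : NonSplit G H S₀ := by
      by_contra hcon
      obtain ⟨i, hi⟩ := fw₀ u hu1 fun γ h1 => by_contra fun h2 => hcon ⟨u, hu1, γ, h1, h2⟩
      exact hu2 i hi
    exact ⟨N, hpN, hN S₀ hS₀ (fun v hv hv' => absurd hv hv') hns m₀ w₀ hw₀⟩
  · refine Pool.Agent.T9h51.PN.local_zero Λ hp hS₀ hcl hw₀ fw₀ _ (Pool.Agent.T9h51.PN.eta_zero Λ hθ.1 hθ.2) N hpN ?_
    have h1 : ∑ k, (⟨1, fun _ => θ, fun _ => Fin.elim0⟩ : Wedge G 0 (US H S₀)).c k = θ := Fin.sum_univ_one _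
    rw [h1]
    exact hN

end Pool.Agent.Results.MP_1322f0_nt.ClassNumberPrimeToP
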