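import Pool.Agent.T9h51.PN.Many

/-!
# MP_1322f0_nt: the `p`-part of Popescu's conjecture for sets `S` with many places

`H / F` is an abelian extension of number fields with group `G`; `S` is a finite set of places of `F` containing the
archimedean ones, given by its prime ideals. `Unram H S` is (H1), `System G S w` is (H2) and (H3), `Full G S w` says that
all places of `S` which split completely are among the `v_i`. `StarkQ Λ S w` is Stark's conjecture over `ℚ`: the element
`η'` for `S`, `w` is rational. `PopescuN N Λ S w` is the statement of Popescu's conjecture (Q1) for `N w_H η'` in place of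
`w_H η'`.

Let `S₀` be a set with (H1) which contains a place not split completely, `w₀` a full system of `r₀ ≥ 0` places over `S₀`, and
suppose that Stark's conjecture over `ℚ` holds for this single instance. Let `p` be a prime number. Then there are numbers
`N`, prime to `p`, and `M` such that `N w_H η'` belongs to the lattice `Λ` for all `S`, `r ≥ 1`, `v_i`, `w_i` with (H1),
(H2), (H3) for which `S` contains the places of `S₀` not split completely and at least `M` prime ideals, not in `S₀` and
different from the `v_i`, whose Frobenius automorphisms have `p`-power order. So the `p`-part of Popescu's conjecture holds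
for these `S`.

In particular let `H / F` be a `p`-extension. Then the `p`-part of the conjecture holds for all `S` which contain the
places of `S₀` and at least `r + M` other places, uniformly in `r`: it can fail only for sets `S` with few places besides
those which split completely.
-/

set_option autoImplicit false

open NumberField IsDedekindDomain Filter Topology

noncomputable section

namespace Pool.Agent.Results.MP_1322f0_nt.ManyPlaces

open Pool.Agent.K3h30.RS Pool.Agent.T9h51.PS

/-- The extension `H(ε ^ (1 / w)) / F` is abelian, `w` the number of the roots of unity in `H`: all automorphisms over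
`F` of an algebraic closure commute on the `w`-th roots of `ε`. -/
def IsAb (F : Type) {H : Type} [Field F] [Field H] [NumberField H] [Algebra F H] (ε : Hˣ) : Prop :=
  ∀ x : AlgebraicClosure H, x ^ (Units.torsionOrder H) = algebraMap H (AlgebraicClosure H) (ε : H) →
    ∀ s t : AlgebraicClosure H ≃ₐ[F] AlgebraicClosure H, s (t x) = t (s x)

/-- `w_1, ..., w_r` represent all places of `S` which split completely. -/
def Full {F H : Type} [Field F] [NumberField F] [Field H] [NumberField H] [Algebra F H]
    (G : Type) [CommGroup G] [MulSemiringAction G H] (S : Finset (HeightOneSpectrum (𝓞 F))) {r : ℕ}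
    (w : Fin r → Place H) : Prop :=
  ∀ u : Place H, InS (S : Set (HeightOneSpectrum (𝓞 F))) u → (∀ γ : G, Fixes u γ → γ = 1) → ∃ i, Conj G u (w i)

/-- Popescu's conjecture for `N η'` in place of `η'`: the element `η'` is rational, and for all `φ_1, ..., φ_(r-1)` the
element `(φ_1 ∧ ... ∧ φ_(r-1)) (N w_H η')` is the image of some `ε` in `E_S(H)` with `H(ε ^ (1 / w_H)) / F` abelian. The
equality in `ℚ E_S(H)` is tested with all homomorphisms `ψ`. -/
def PopescuN {F H G : Type} [Field F] [NumberField F] [Field H] [NumberField H] [Algebra F H]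
    [CommGroup G] [Finite G] [MulSemiringAction G H] (N : ℕ) (Λ : LData F H G) (S : Finset (HeightOneSpectrum (𝓞 F)))
    {m : ℕ} (w : Fin (m + 1) → Place H) : Prop :=
  ∃ u : Wedge G (m + 1) (US H S), IsEta Λ S w u ∧
    ∀ φ : Fin m → GHom G (US H S), ∃ ε : US H S, IsAb F (ε : Hˣ) ∧ ∀ ψ : GHom G (US H S),
      ((N * Units.torsionOrder H : ℕ) : MonoidAlgebra ℚ G) * u.value (Fin.snoc φ ψ) = toQ (ψ.f (Additive.ofMul ε))

/-- Stark's conjecture over `ℚ` for `H / F`, `S` and the places `w_1, ..., w_r`: the element `η'` is rational. -/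
def StarkQ {F H G : Type} [Field F] [NumberField F] [Field H] [NumberField H] [Algebra F H]
    [CommGroup G] [Finite G] [MulSemiringAction G H] (Λ : LData F H G) (S : Finset (HeightOneSpectrum (𝓞 F))) {r : ℕ}
    (w : Fin r → Place H) : Prop :=
  ∃ u : Wedge G r (US H S), IsEta Λ S w u

/-- The `p`-part of Popescu's conjecture for all `S` with many places whose Frobenius automorphisms have `p`-power
order. -/
theorem result {F H G : Type} [Field F] [NumberField F] [Field H] [NumberField H] [Algebra F H]
    [CommGroup G] [Finite G] [MulSemiringAction G H] [IsGaloisGroup G F H] (Λ : LData F H G)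
    (S₀ : Finset (HeightOneSpectrum (𝓞 F))) (hS₀ : Unram H S₀) (r₀ : ℕ) (w₀ : Fin r₀ → Place H)
    (hw₀ : System G S₀ w₀) (fw₀ : Full G S₀ w₀) (h : StarkQ Λ S₀ w₀)
    (hns₀ : ∃ u : Place H, InS (S₀ : Set (HeightOneSpectrum (𝓞 F))) u ∧ ∃ γ : G, Fixes u γ ∧ γ ≠ 1)
    (p : ℕ) (hp : p.Prime) :
    ∃ N M : ℕ, 0 < N ∧ ¬ p ∣ N ∧ ∀ S A : Finset (HeightOneSpectrum (𝓞 F)), Unram H S →
      (∀ v ∈ S₀, v ∉ S → ∀ P : HeightOneSpectrum (𝓞 H), Above {v} P → ∀ γ : G,
        Fixes (Sum.inr P : Place H) γ → γ = 1) →
      ∀ (m : ℕ) (w : Fin (m + 1) → Place H), System G S w → A ⊆ S → Disjoint A S₀ →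
      (∀ v ∈ A, (∃ k : ℕ, Λ.σ v ^ p ^ k = 1) ∧ ∀ (i : Fin (m + 1)) (P : HeightOneSpectrum (𝓞 H)),
        w i = Sum.inr P → ¬ Above {v} P) → M ≤ A.card → PopescuN N Λ S w :=
  Pool.Agent.T9h51.PN.many Λ hS₀ hw₀ fw₀ h hns₀ p hp

end Pool.Agent.Results.MP_1322f0_nt.ManyPlaces
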