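import Pool.Agent.T9h51.PS.Fin

/-!
# MP_1322f0_nt: Popescu's conjecture for `H / F` follows from a single instance

`H / F` is an abelian extension of number fields with group `G`; `S` is a finite set of places of `F` containing the
archimedean ones, given by its prime ideals. `Popescu Λ S w` is Popescu's conjecture (Q1) for `H / F`, `S`, `r = m + 1` and
the places `w = (w_1, ..., w_r)` of `H`; `Unram H S` is (H1), `System G S w` is (H2) and (H3), `Full G S w` says that all
places of `S` which split completely are among the `v_i`.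

1. Let `S₁` be a set with trivial `S₁`-class group of `H` and `w₁` a full system of places over `S₁`. Then
   `Popescu Λ S₁ w₁` implies the conjecture for all `S` which contain the places of `S₁` not split completely and at least
   one place not split completely, for all `r` and all `w_i`.
2. Let `u₁` be a place of `H` with nontrivial decomposition group, for instance a ramified place. There are a finite set
   `S₁`, disjoint from any given finite set of unramified prime ideals (not under `u₁`), and a full system `w₁` of places,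
   such that the single instance `Popescu Λ S₁ w₁` implies the conjecture for all `S` containing the place under `u₁`, all
   `r` and all `w_i`. If `H / F` is ramified at `u₁`, finite or archimedean, these are all `S` with (H1).
3. If `v` splits completely, `v` not in `S`, and the prime ideal `P` over `v` is principal outside `S`, then the conjecture
   for `S`, `w_1, ..., w_r` and the conjecture for `S ∪ {v}`, `P, w_1, ..., w_r` are equivalent.
4. For all `H / F` and all `r`, the conjecture for `r + 1` (all `S`, all `w_i`) implies the conjecture for `r`.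
-/

set_option autoImplicit false

open NumberField IsDedekindDomain Filter Topology

noncomputable section

namespace Pool.Agent.Results.MP_1322f0_nt.OneInstance

open Pool.Agent.K3h30.RS Pool.Agent.T9h51.PS

/-- The extension `H(ε ^ (1 / w)) / F` is abelian, `w` the number of the roots of unity in `H`: all automorphisms over
`F` of an algebraic closure commute on the `w`-th roots of `ε`. -/
def IsAb (F : Type) {H : Type} [Field F] [Field H] [NumberField H] [Algebra F H] (ε : Hˣ) : Prop :=
  ∀ x : AlgebraicClosure H, x ^ (Units.torsionOrder H) = algebraMap H (AlgebraicClosure H) (ε : H) →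
    ∀ s t : AlgebraicClosure H ≃ₐ[F] AlgebraicClosure H, s (t x) = t (s x)

/-- `w_1, ..., w_r` represent all places of `S` which split completely. -/
def Full {F H : Type} [Field F] [NumberField F] [Field H] [NumberField H] [Algebra F H]
    (G : Type) [CommGroup G] [MulSemiringAction G H] (S : Finset (HeightOneSpectrum (𝓞 F))) {r : ℕ}
    (w : Fin r → Place H) : Prop :=
  ∀ u : Place H, InS (S : Set (HeightOneSpectrum (𝓞 F))) u → (∀ γ : G, Fixes u γ → γ = 1) → ∃ i, Conj G u (w i)

/-- Popescu's conjecture for `H / F`, `S`, `r = m + 1` and the places `w_1, ..., w_r`: the element `η'` is rational, and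
for all `φ_1, ..., φ_(r-1)` the element `(φ_1 ∧ ... ∧ φ_(r-1)) (w_H η')` is the image of some `ε` in `E_S(H)` with
`H(ε ^ (1 / w_H)) / F` abelian. The equality in `ℚ E_S(H)` is tested with all homomorphisms `ψ`. -/
def Popescu {F H G : Type} [Field F] [NumberField F] [Field H] [NumberField H] [Algebra F H]
    [CommGroup G] [Finite G] [MulSemiringAction G H] (Λ : LData F H G) (S : Finset (HeightOneSpectrum (𝓞 F))) {m : ℕ}
    (w : Fin (m + 1) → Place H) : Prop :=
  ∃ u : Wedge G (m + 1) (US H S), IsEta Λ S w u ∧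
    ∀ φ : Fin m → GHom G (US H S), ∃ ε : US H S, IsAb F (ε : Hˣ) ∧ ∀ ψ : GHom G (US H S),
      (Units.torsionOrder H : MonoidAlgebra ℚ G) * u.value (Fin.snoc φ ψ) = toQ (ψ.f (Additive.ofMul ε))

/-- The prime ideal `P` is principal outside `S`: some `x` in `H^*` has order `1` at `P` and order `0` at all other prime
ideals which are not over `S`. -/
def PrincipalOutside {F H : Type} [Field F] [NumberField F] [Field H] [NumberField H] [Algebra F H]
    (S : Finset (HeightOneSpectrum (𝓞 F))) (P : HeightOneSpectrum (𝓞 H)) : Prop :=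
  ∃ x : Hˣ, od P (Additive.ofMul x) = 1 ∧ ∀ Q : HeightOneSpectrum (𝓞 H), Q ≠ P →
    ¬ Above (S : Set (HeightOneSpectrum (𝓞 F))) Q → od Q (Additive.ofMul x) = 0

open Classical in
/-- Popescu's conjecture for `H / F` follows from one instance; raising and lowering of `r`. -/
theorem result {F H G : Type} [Field F] [NumberField F] [Field H] [NumberField H] [Algebra F H]
    [CommGroup G] [Finite G] [MulSemiringAction G H] [IsGaloisGroup G F H] :
    (∀ (Λ : LData F H G) (S₁ : Finset (HeightOneSpectrum (𝓞 F))) (m₁ : ℕ) (w₁ : Fin (m₁ + 1) → Place H),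
      Unram H S₁ → (∀ P : HeightOneSpectrum (𝓞 H), ¬ Above (S₁ : Set (HeightOneSpectrum (𝓞 F))) P →
        PrincipalOutside S₁ P) → System G S₁ w₁ → Full G S₁ w₁ → Popescu Λ S₁ w₁ →
      ∀ S : Finset (HeightOneSpectrum (𝓞 F)), Unram H S →
        (∀ v ∈ S₁, v ∉ S → ∀ P : HeightOneSpectrum (𝓞 H), Above {v} P → ∀ γ : G,
          Fixes (Sum.inr P : Place H) γ → γ = 1) →
        (∃ u : Place H, InS (S : Set (HeightOneSpectrum (𝓞 F))) u ∧ ∃ γ : G, Fixes u γ ∧ γ ≠ 1) →
        ∀ (m : ℕ) (w : Fin (m + 1) → Place H), System G S w → Popescu Λ S w) ∧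
    (∀ u₁ : Place H, (∃ γ : G, Fixes u₁ γ ∧ γ ≠ 1) → ∀ B : Finset (HeightOneSpectrum (𝓞 F)),
      (∀ v ∈ B, Squarefree (v.asIdeal.map (algebraMap (𝓞 F) (𝓞 H))) ∧
        ∀ P : HeightOneSpectrum (𝓞 H), u₁ = Sum.inr P → ¬ Above {v} P) →
      ∃ (S₁ : Finset (HeightOneSpectrum (𝓞 F))) (m₁ : ℕ) (w₁ : Fin (m₁ + 1) → Place H),
        Unram H S₁ ∧ Disjoint S₁ B ∧ System G S₁ w₁ ∧ Full G S₁ w₁ ∧
        ∀ Λ : LData F H G, Popescu Λ S₁ w₁ →
          ∀ S : Finset (HeightOneSpectrum (𝓞 F)), Unram H S → InS (S : Set (HeightOneSpectrum (𝓞 F))) u₁ →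
            ∀ (m : ℕ) (w : Fin (m + 1) → Place H), System G S w → Popescu Λ S w) ∧
    (∀ (Λ : LData F H G) (S : Finset (HeightOneSpectrum (𝓞 F))) (v : HeightOneSpectrum (𝓞 F))
      (P : HeightOneSpectrum (𝓞 H)) (m : ℕ) (w : Fin (m + 1) → Place H), Unram H S → v ∉ S → Above {v} P →
      (∀ γ : G, Fixes (Sum.inr P : Place H) γ → γ = 1) → PrincipalOutside S P →
      (Popescu Λ (insert v S) (Fin.cons (Sum.inr P) w : Fin (m + 1 + 1) → Place H) ↔ Popescu Λ S w)) ∧
    (∀ (Λ : LData F H G) (m : ℕ),
      (∀ (S : Finset (HeightOneSpectrum (𝓞 F))) (w : Fin (m + 1 + 1) → Place H), Unram H S → System G S w →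
        Popescu Λ S w) →
      ∀ (S : Finset (HeightOneSpectrum (𝓞 F))) (w : Fin (m + 1) → Place H), Unram H S → System G S w →
        Popescu Λ S w) := by
  refine ⟨fun Λ S₁ m₁ w₁ h2 h7 h5 h6 hΛ S hS hsp hns m w hw => popescu_all Λ h2 h7 h5 h6 hΛ hS hsp hns hw,
    fun u₁ h₁ B hB => ?_, fun Λ S v P m w hS hv hP hs hx => ⟨popescu_down Λ hS hv hP hs, ?_⟩,
    fun Λ m h S w hS hw => ?_⟩
  · obtain ⟨S₁, m₁, w₁, h2, h3, h4, h5, h6, h7, h8⟩ := exists_S1 (F := F) u₁ h₁ B hB
    exact ⟨S₁, m₁, w₁, h2, h4, h5, h6, fun Λ hΛ S hS hu m w hw =>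
      popescu_all Λ h2 h7 h5 h6 hΛ hS (h8 S hS hu) ⟨u₁, hu, h₁⟩ hw⟩
  · obtain ⟨x, hx1, hx2⟩ := hx
    exact popescu_up Λ hS hv hP hs x hx1 hx2
  · obtain ⟨v, P, hv, hP, hs⟩ := exists_split (H := H) G S
    exact popescu_down Λ hS hv hP hs (h (insert v S) _ (fun v' hv' => hS v' fun h => hv' (Finset.mem_insert_of_mem h))
      (system_cons hv hP hs hw))

end Pool.Agent.Results.MP_1322f0_nt.OneInstance
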