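import Pool.Agent.T9h51.PN.Stark

/-!
# MP_1322f0_nt: bounded denominators, uniformly in `S` and `r`

`H / F` is an abelian extension of number fields with group `G`; `S` is a finite set of places of `F` containing the
archimedean ones, given by its prime ideals. `Unram H S` is (H1), `System G S w` is (H2) and (H3), `Full G S w` says that
all places of `S` which split completely are among the `v_i`. `StarkQ Λ S w` is Stark's conjecture over `ℚ`: the element
`η'` for `S`, `w` is rational. `PopescuN N Λ S w` is the statement of Popescu's conjecture (Q1) for `N w_H η'` in place of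
`w_H η'`: `N w_H η'` belongs to the lattice `Λ`.

Let `S₀` be a set with (H1) and `w₀` a full system of `r₀ ≥ 0` places over `S₀` (`r₀ = 0` is allowed: then `StarkQ` is the
rationality of the values `L_{S₀}(0, χ)`). If Stark's conjecture over `ℚ` holds for this single instance, then there is one
number `N ≥ 1` such that `N w_H η'` belongs to `Λ` for ALL finite sets `S` with (H1) which contain the places of `S₀` not
split completely and at least one place not split completely, all `r ≥ 1` and all `v_i`, `w_i` with (H2), (H3).
So the `ℓ`-part of Popescu's conjecture for `H / F` holds for all prime numbers `ℓ` outside a finite set which does not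
depend on `S`, `r`, `v_i`, `w_i`. If `F` is totally real and `H` totally complex, one can take for `S₀` the archimedean
and ramified places, `r₀ = 0`, and the hypothesis is the theorem of Siegel and Klingen.
-/

set_option autoImplicit false

open NumberField IsDedekindDomain Filter Topology

noncomputable section

namespace Pool.Agent.Results.MP_1322f0_nt.UniformDenominators

open Pool.Agent.K3h30.RS Pool.Agent.T9h51.PS

/-- The extension `H(ε ^ (1 / w)) / F` is abelian, `w` the number of the roots of unity in `H`: all automorphisms over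
`F` of an algebraic closure commute on the `w`-th roots of `ε`. -/
def IsAb (F : Type) {H : Type} [Field F] [Field H] [NumberField H] [Algebra F H] (ε : Hˣ) : Prop :=
  ∀ x : AlgebraicClosure H, x ^ (Units.torsionOrder H) = algebraMap H (AlgebraicClosure H) (ε : H) →
    ∀ s t : AlgebraicClosure H ≃ₐ[F] AlgebraicClosure H, s (t x) = t (s x)

/-- `w_1, ..., w_r` represent all places of `S` which split completely. -/
def Full {F H : Type} [Field F] [NumberField F] [Field H] [NumberField H] [Algebra F H]
    (G : Type) [CommGroup G] [MulSemiringAction G H] (S : Finset (HeightOneSpectrum (𝓞 F))) {r : ℕ}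
    (w : Fin r → Place H) : Prop :=
  ∀ u : Place H, InS (S : Set (HeightOneSpectrum (𝓞 F))) u → (∀ γ : G, Fixes u γ → γ = 1) → ∃ i, Conj G u (w i)

/-- Popescu's conjecture for `N η'` in place of `η'`: the element `η'` is rational, and for all `φ_1, ..., φ_(r-1)` the
element `(φ_1 ∧ ... ∧ φ_(r-1)) (N w_H η')` is the image of some `ε` in `E_S(H)` with `H(ε ^ (1 / w_H)) / F` abelian. The
equality in `ℚ E_S(H)` is tested with all homomorphisms `ψ`. -/
def PopescuN {F H G : Type} [Field F] [NumberField F] [Field H] [NumberField H] [Algebra F H]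
    [CommGroup G] [Finite G] [MulSemiringAction G H] (N : ℕ) (Λ : LData F H G) (S : Finset (HeightOneSpectrum (𝓞 F)))
    {m : ℕ} (w : Fin (m + 1) → Place H) : Prop :=
  ∃ u : Wedge G (m + 1) (US H S), IsEta Λ S w u ∧
    ∀ φ : Fin m → GHom G (US H S), ∃ ε : US H S, IsAb F (ε : Hˣ) ∧ ∀ ψ : GHom G (US H S),
      ((N * Units.torsionOrder H : ℕ) : MonoidAlgebra ℚ G) * u.value (Fin.snoc φ ψ) = toQ (ψ.f (Additive.ofMul ε))

/-- Stark's conjecture over `ℚ` for `H / F`, `S` and the places `w_1, ..., w_r`: the element `η'` is rational. -/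
def StarkQ {F H G : Type} [Field F] [NumberField F] [Field H] [NumberField H] [Algebra F H]
    [CommGroup G] [Finite G] [MulSemiringAction G H] (Λ : LData F H G) (S : Finset (HeightOneSpectrum (𝓞 F))) {r : ℕ}
    (w : Fin r → Place H) : Prop :=
  ∃ u : Wedge G r (US H S), IsEta Λ S w u

/-- Stark's conjecture over `ℚ` for one set `S₀` implies Popescu's conjecture for all `S`, `r`, `w_i` up to one factor
`N`. -/
theorem result {F H G : Type} [Field F] [NumberField F] [Field H] [NumberField H] [Algebra F H]
    [CommGroup G] [Finite G] [MulSemiringAction G H] [IsGaloisGroup G F H] (Λ : LData F H G)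
    (S₀ : Finset (HeightOneSpectrum (𝓞 F))) (hS₀ : Unram H S₀) (r₀ : ℕ) (w₀ : Fin r₀ → Place H)
    (hw₀ : System G S₀ w₀) (fw₀ : Full G S₀ w₀) (h : StarkQ Λ S₀ w₀) :
    ∃ N : ℕ, 0 < N ∧ ∀ S : Finset (HeightOneSpectrum (𝓞 F)), Unram H S →
      (∀ v ∈ S₀, v ∉ S → ∀ P : HeightOneSpectrum (𝓞 H), Above {v} P → ∀ γ : G,
        Fixes (Sum.inr P : Place H) γ → γ = 1) →
      (∃ u : Place H, InS (S : Set (HeightOneSpectrum (𝓞 F))) u ∧ ∃ γ : G, Fixes u γ ∧ γ ≠ 1) →
      ∀ (m : ℕ) (w : Fin (m + 1) → Place H), System G S w → PopescuN N Λ S w :=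
  Pool.Agent.T9h51.PN.uniform Λ hS₀ hw₀ fw₀ h

end Pool.Agent.Results.MP_1322f0_nt.UniformDenominators
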